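import Mathlib
import Pool.Agent.H69R3.Defs
import Pool.Agent.Y237.TC.Cube

/-!
# Cubes inside the connected components of t-extral spaces
-/

set_option autoImplicit false

open Set Topology unitInterval

universe u

namespace Pool.Agent.Results.MP_a58584_gt.CubeInComponent

open Pool.Agent.H69R3
open Pool.Agent.Y237.TD

/-- Let the Tychonoff space `X` be t-extral, or compact and homeomorphic to a t-embedded subspace of
a Tychonoff cube. If `X` is not metrizable, then some connected component of `X` contains a copy of
the Cantor cube `{0,1}^ω₁`. -/
theorem result (X : Type u) [TopologicalSpace X] [T35Space X]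
    (hX : TExtral X ∨ (CompactSpace X ∧ ∃ (lam : Type u) (e : X → (lam → I)), IsEmbedding e ∧
      TEmbedded (range e))) (hm : ¬ TopologicalSpace.MetrizableSpace X) :
    ∃ x : X, HasCube (connectedComponent x) := by
  rcases hX with h | ⟨hc, lam, e, he, h⟩
  · exact Pool.Agent.Y237.TC.main_component h hm
  · exact (Pool.Agent.Y237.TC.of_cube he h).2 hm

end Pool.Agent.Results.MP_a58584_gt.CubeInComponent
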